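import Mathlib

/-!
# Rounding with exact laminar cardinality constraints

The proof that the linear discrepancy is bounded by the hereditary discrepancy, with the rounding
of every binary digit done on pairs of indices which respect a laminar family.
-/

set_option autoImplicit false

namespace Pool.Agent.R814.Lam

open Finset

variable {n : ℕ} {κ : Type}

/-- Any two members are disjoint, or one of them contains the other. -/
def Laminar (L : Set (Finset (Fin n))) : Prop :=
  ∀ S ∈ L, ∀ T ∈ L, S ⊆ T ∨ T ⊆ S ∨ Disjoint S T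

theorem abs_sum_le_one (O : Finset (Fin n)) (s : Fin n → ℤ) (hs : ∀ j, s j = 1 ∨ s j = -1)
    (h : O.card ≤ 1) : |∑ j ∈ O, s j| ≤ 1 := by
  rcases Nat.le_one_iff_eq_zero_or_eq_one.1 h with h | h
  · rw [Finset.card_eq_zero.1 h]; simp
  · obtain ⟨a, rfl⟩ := Finset.card_eq_one.1 h
    rw [Finset.sum_singleton]
    rcases hs a with h | h <;> rw [h] <;> simp

/-- a minimal member with at least two points in `O` -/
theorem exists_min (L : Set (Finset (Fin n))) (O : Finset (Fin n))
    (h : ∃ S ∈ L, 2 ≤ (S ∩ O).card) :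
    ∃ S ∈ L, 2 ≤ (S ∩ O).card ∧ ∀ T ∈ L, 2 ≤ (T ∩ O).card → S.card ≤ T.card := by
  classical
  obtain ⟨S, hS, h2⟩ := h
  have hne : (Finset.univ.filter (fun S : Finset (Fin n) => S ∈ L ∧ 2 ≤ (S ∩ O).card)).Nonempty :=
    ⟨S, by simp [hS, h2]⟩
  obtain ⟨S₀, h0, hmin⟩ := Finset.exists_min_image _ (fun S : Finset (Fin n) => S.card) hne
  simp only [Finset.mem_filter, Finset.mem_univ, true_and] at h0 hmin
  exact ⟨S₀, h0.1, h0.2, fun T hT hT2 => hmin T ⟨hT, hT2⟩⟩

/-- In a minimal member `S` choose `a`, `b`: other members with two points contain both or none. -/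
theorem both_or_none {L : Set (Finset (Fin n))} (hL : Laminar L) {O S T : Finset (Fin n)}
    (hS : S ∈ L) (hT : T ∈ L) (hmin : ∀ T ∈ L, 2 ≤ (T ∩ O).card → S.card ≤ T.card)
    (hT2 : 2 ≤ (T ∩ O).card) {a b : Fin n} (ha : a ∈ S) (hb : b ∈ S) : a ∈ T ↔ b ∈ T := by
  rcases hL S hS T hT with h | h | h
  · exact ⟨fun _ => h hb, fun _ => h ha⟩
  · have h1 := Finset.eq_of_subset_of_card_le h (hmin T hT hT2)
    rw [h1]
    exact ⟨fun _ => hb, fun _ => ha⟩
  · have h1 := Finset.disjoint_left.1 h
    exact ⟨fun h2 => absurd h2 (h1 ha), fun h2 => absurd h2 (h1 hb)⟩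

theorem pairing {L : Set (Finset (Fin n))} (hL : Laminar L) (v : Fin n → κ → ℝ)
    (𝒟 : (κ → ℝ) → Prop) (h1 : ∀ a, 𝒟 (v a)) (h2 : ∀ a b, 𝒟 (fun c => v a c - v b c)) :
    ∀ (m : ℕ) (O : Finset (Fin n)), O.card = m → ∃ k ≤ m, ∃ w : Fin k → κ → ℝ, (∀ i, 𝒟 (w i)) ∧
      ∀ ε : Fin k → ℤ, (∀ i, ε i = 1 ∨ ε i = -1) → ∃ s : Fin n → ℤ, (∀ j, s j = 1 ∨ s j = -1) ∧
        (∀ S ∈ L, |∑ j ∈ S ∩ O, s j| ≤ 1) ∧
        ∀ c, ∑ j ∈ O, (s j : ℝ) * v j c = ∑ i, (ε i : ℝ) * w i c := by
  classical
  intro m
  induction m using Nat.strong_induction_on with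
  | _ m ih =>
    intro O hO
    by_cases hcase : ∃ S ∈ L, 2 ≤ (S ∩ O).card
    · obtain ⟨S, hS, hS2, hmin⟩ := exists_min L O hcase
      obtain ⟨a, ha, b, hb, hab⟩ := Finset.one_lt_card.1 (by omega : 1 < (S ∩ O).card)
      rw [Finset.mem_inter] at ha hb
      set O' := (O.erase a).erase b with hO'
      have hbO : b ∈ O.erase a := Finset.mem_erase.2 ⟨hab.symm, hb.2⟩
      have hcard : O'.card + 2 = m := by
        have e1 := Finset.card_erase_add_one ha.2
        have e2 := Finset.card_erase_add_one hbO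
        rw [hO']
        omega
      obtain ⟨k, hk, w, hw, hε⟩ := ih O'.card (by omega) O' rfl
      refine ⟨k + 1, by omega, Fin.cons (fun c => v a c - v b c) w, ?_, ?_⟩
      · intro i
        refine Fin.cases ?_ (fun i => ?_) i
        · simpa using h2 a b
        · simpa using hw i
      · intro ε hε1
        obtain ⟨s', hs', hL', hv'⟩ := hε (fun i => ε i.succ) (fun i => hε1 i.succ)
        set s : Fin n → ℤ := fun j => if j = a then ε 0 else if j = b then -ε 0 else s' j with hs
        have hsa : s a = ε 0 := by simp [hs]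
        have hsb : s b = -ε 0 := by simp [hs, hab.symm]
        have hsO : ∀ j ∈ O', s j = s' j := by
          intro j hj
          rw [hO', Finset.mem_erase, Finset.mem_erase] at hj
          simp [hs, hj.1, hj.2.1]
        have hs1 : ∀ j, s j = 1 ∨ s j = -1 := by
          intro j
          simp only [hs]
          split_ifs
          · exact hε1 0
          · rcases hε1 0 with h | h <;> simp [h]
          · exact hs' j
        have hsum : ∀ f : Fin n → ℝ, ∑ j ∈ O, f j = f a + (f b + ∑ j ∈ O', f j) := by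
          intro f
          rw [← Finset.add_sum_erase _ _ ha.2, ← Finset.add_sum_erase _ _ hbO]
        have hsumZ : ∀ f : Fin n → ℤ, ∑ j ∈ O, f j = f a + (f b + ∑ j ∈ O', f j) := by
          intro f
          rw [← Finset.add_sum_erase _ _ ha.2, ← Finset.add_sum_erase _ _ hbO]
        refine ⟨s, hs1, ?_, ?_⟩
        · intro T hT
          by_cases hT2 : 2 ≤ (T ∩ O).card
          · have hiff := both_or_none hL hS hT hmin hT2 ha.1 hb.1
            have e1 : ∀ (O₁ : Finset (Fin n)) (f : Fin n → ℤ),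
                ∑ j ∈ T ∩ O₁, f j = ∑ j ∈ O₁, if j ∈ T then f j else 0 := by
              intro O₁ f
              rw [Finset.inter_comm, ← Finset.filter_mem_eq_inter, Finset.sum_filter]
            have e2 : ∑ j ∈ T ∩ O, s j = ∑ j ∈ T ∩ O', s' j := by
              rw [e1, e1, hsumZ]
              have e3 : (if a ∈ T then s a else 0) + (if b ∈ T then s b else 0) = 0 := by
                by_cases h : a ∈ T
                · rw [if_pos h, if_pos (hiff.1 h), hsa, hsb]; ring
                · rw [if_neg h, if_neg (fun h' => h (hiff.2 h'))]; ring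
              rw [← add_assoc, e3, zero_add]
              refine Finset.sum_congr rfl fun j hj => ?_
              rw [hsO j hj]
            rw [e2]
            exact hL' T hT
          · exact abs_sum_le_one _ s hs1 (by omega)
        · intro c
          rw [hsum, Fin.sum_univ_succ]
          have h3 := hv' c
          simp only [Fin.cons_zero, Fin.cons_succ]
          rw [← h3, hsa, hsb]
          have h4 : ∑ j ∈ O', (s j : ℝ) * v j c = ∑ j ∈ O', (s' j : ℝ) * v j c :=
            Finset.sum_congr rfl fun j hj => by rw [hsO j hj]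
          rw [h4]
          push_cast
          ring
    · push Not at hcase
      rcases O.eq_empty_or_nonempty with rfl | ⟨a, ha⟩
      · refine ⟨0, by omega, fun i => i.elim0, fun i => i.elim0, fun ε _ => ?_⟩
        exact ⟨fun _ => 1, fun _ => Or.inl rfl, fun S _ => by simp, fun c => by simp⟩
      · have hcard := Finset.card_erase_add_one ha
        obtain ⟨k, hk, w, hw, hε⟩ := ih (O.erase a).card (by omega) (O.erase a) rfl
        refine ⟨k + 1, by omega, Fin.cons (v a) w, ?_, ?_⟩
        · intro i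
          refine Fin.cases ?_ (fun i => ?_) i
          · simpa using h1 a
          · simpa using hw i
        · intro ε hε1
          obtain ⟨s', hs', _, hv'⟩ := hε (fun i => ε i.succ) (fun i => hε1 i.succ)
          set s : Fin n → ℤ := fun j => if j = a then ε 0 else s' j with hs
          have hs1 : ∀ j, s j = 1 ∨ s j = -1 := by
            intro j
            simp only [hs]
            split_ifs
            · exact hε1 0
            · exact hs' j
          refine ⟨s, hs1, ?_, ?_⟩
          · intro T hT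
            exact abs_sum_le_one _ s hs1 (by have := hcase T hT; omega)
          · intro c
            rw [← Finset.add_sum_erase _ _ ha, Fin.sum_univ_succ]
            simp only [Fin.cons_zero, Fin.cons_succ]
            rw [← hv' c]
            congr 1
            · simp [hs]
            · refine Finset.sum_congr rfl fun j hj => ?_
              rw [Finset.mem_erase] at hj
              simp [hs, hj.1]

/-- the hypothesis on signings -/
def HasSignings (n : ℕ) (𝒟 : (κ → ℝ) → Prop) (B : ℝ) : Prop :=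
  ∀ k ≤ n, ∀ w : Fin k → κ → ℝ, (∀ i, 𝒟 (w i)) →
    ∃ ε : Fin k → ℤ, (∀ i, ε i = 1 ∨ ε i = -1) ∧ ∀ c, |∑ i, (ε i : ℝ) * w i c| ≤ B

/-- one binary digit -/
theorem halve {L : Set (Finset (Fin n))} (hL : Laminar L) (v : Fin n → κ → ℝ)
    (𝒟 : (κ → ℝ) → Prop) (h1 : ∀ a, 𝒟 (v a)) (h2 : ∀ a b, 𝒟 (fun c => v a c - v b c)) (B : ℝ)
    (hB : HasSignings n 𝒟 B) (z : Fin n → ℤ) :
    ∃ y : Fin n → ℤ, (∀ j, z j ≤ 2 * y j + 1 ∧ 2 * y j ≤ z j + 1) ∧
      (∀ S ∈ L, |∑ j ∈ S, (2 * y j - z j)| ≤ 1) ∧
      ∀ c, |∑ j, ((2 * y j - z j : ℤ) : ℝ) * v j c| ≤ B := by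
  classical
  set O : Finset (Fin n) := Finset.univ.filter (fun j => z j % 2 = 1) with hO
  obtain ⟨k, hk, w, hw, h⟩ := pairing hL v 𝒟 h1 h2 O.card O rfl
  have hOn : O.card ≤ n := by
    have := Finset.card_le_univ O
    rwa [Fintype.card_fin] at this
  obtain ⟨ε, hε, hεB⟩ := hB k (hk.trans hOn) w hw
  obtain ⟨s, hs, hsL, hsv⟩ := h ε hε
  have key : ∀ j, ∃ y : ℤ, 2 * y - z j = if j ∈ O then s j else 0 := by
    intro j
    by_cases hj : j ∈ O
    · have h3 : z j % 2 = 1 := by simpa [hO] using hj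
      rw [if_pos hj]
      rcases hs j with h4 | h4
      · exact ⟨(z j + 1) / 2, by omega⟩
      · exact ⟨(z j - 1) / 2, by omega⟩
    · have h3 : z j % 2 ≠ 1 := by simpa [hO] using hj
      rw [if_neg hj]
      exact ⟨z j / 2, by omega⟩
  choose y hy using key
  refine ⟨y, ?_, ?_, ?_⟩
  · intro j
    have h3 := hy j
    split_ifs at h3
    · rcases hs j with h4 | h4 <;> constructor <;> omega
    · constructor <;> omega
  · intro S hS
    have h3 : ∑ j ∈ S, (2 * y j - z j) = ∑ j ∈ S ∩ O, s j := by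
      rw [← Finset.filter_mem_eq_inter, Finset.sum_filter]
      exact Finset.sum_congr rfl fun j _ => hy j
    rw [h3]
    exact hsL S hS
  · intro c
    have h3 : ∑ j, ((2 * y j - z j : ℤ) : ℝ) * v j c = ∑ j ∈ O, (s j : ℝ) * v j c := by
      have h4 : ∀ j, ((2 * y j - z j : ℤ) : ℝ) * v j c =
          if j ∈ O then (s j : ℝ) * v j c else 0 := by
        intro j
        rw [hy j]
        split_ifs <;> simp
      simp_rw [h4]
      rw [← Finset.sum_filter]
      congr 1
      ext j
      simp
    rw [h3, hsv c]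
    exact hεB c

/-- rounding of dyadic points -/
theorem dyadic {L : Set (Finset (Fin n))} (hL : Laminar L) (v : Fin n → κ → ℝ)
    (𝒟 : (κ → ℝ) → Prop) (h1 : ∀ a, 𝒟 (v a)) (h2 : ∀ a b, 𝒟 (fun c => v a c - v b c)) (B : ℝ)
    (hB : HasSignings n 𝒟 B) : ∀ (m : ℕ) (z : Fin n → ℤ), (∀ j, 0 ≤ z j ∧ z j ≤ 2 ^ m) →
    ∃ x : Fin n → ℤ, (∀ j, x j = 0 ∨ x j = 1) ∧
      (∀ S ∈ L, |∑ j ∈ S, (2 ^ m * x j - z j)| ≤ 2 ^ m - 1) ∧
      ∀ c, |∑ j, ((2 ^ m * x j - z j : ℤ) : ℝ) * v j c| ≤ (2 ^ m - 1) * B := by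
  intro m
  induction m with
  | zero =>
    intro z hz
    refine ⟨z, fun j => ?_, fun S _ => by simp, fun c => by simp⟩
    have h3 := hz j
    simp only [pow_zero] at h3
    omega
  | succ m ih =>
    intro z hz
    obtain ⟨y, hy, hyL, hyv⟩ := halve hL v 𝒟 h1 h2 B hB z
    obtain ⟨x, hx, hxL, hxv⟩ := ih y (fun j => by
      have h3 := hy j
      have h4 := hz j
      rw [pow_succ] at h4
      constructor <;> omega)
    refine ⟨x, hx, ?_, ?_⟩
    · intro S hS
      have e : ∑ j ∈ S, (2 ^ (m + 1) * x j - z j) =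
          2 * ∑ j ∈ S, (2 ^ m * x j - y j) + ∑ j ∈ S, (2 * y j - z j) := by
        rw [Finset.mul_sum, ← Finset.sum_add_distrib]
        refine Finset.sum_congr rfl fun j _ => ?_
        rw [pow_succ]; ring
      rw [e]
      refine (abs_add_le _ _).trans ?_
      rw [abs_mul, abs_two]
      have h3 := hxL S hS
      have h4 := hyL S hS
      rw [pow_succ]
      linarith
    · intro c
      have e : ∑ j, ((2 ^ (m + 1) * x j - z j : ℤ) : ℝ) * v j c =
          2 * ∑ j, ((2 ^ m * x j - y j : ℤ) : ℝ) * v j c +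
            ∑ j, ((2 * y j - z j : ℤ) : ℝ) * v j c := by
        rw [Finset.mul_sum, ← Finset.sum_add_distrib]
        refine Finset.sum_congr rfl fun j _ => ?_
        push_cast
        rw [pow_succ]; ring
      rw [e]
      refine (abs_add_le _ _).trans ?_
      rw [abs_mul, abs_two]
      have h3 := hxv c
      have h4 := hyv c
      rw [pow_succ]
      linarith

end Pool.Agent.R814.Lam
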