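import Pool.Agent.R814.Lam.Basic

/-!
# Rounding with exact laminar cardinality constraints: arbitrary starting points
-/

set_option autoImplicit false

namespace Pool.Agent.R814.Lam

open Finset

variable {n : ℕ} {κ : Type}

theorem sum_single_frac (y : Fin n → ℝ) (T : Finset (Fin n)) (a : Fin n) (ha : a ∈ T)
    (h : ∀ j ∈ T, j ≠ a → (⌊y j⌋ : ℝ) = y j) :
    ∑ j ∈ T, y j = y a + ((∑ j ∈ T.erase a, ⌊y j⌋ : ℤ) : ℝ) := by
  rw [← Finset.add_sum_erase _ _ ha]
  congr 1
  push_cast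
  exact Finset.sum_congr rfl fun j hj =>
    (h j (Finset.mem_of_mem_erase hj) (Finset.ne_of_mem_erase hj)).symm

theorem ceil_of_int {r : ℝ} (h : (⌊r⌋ : ℝ) = r) : ⌈r⌉ = ⌊r⌋ := by
  conv_lhs => rw [← h]
  exact Int.ceil_intCast _

open Classical in
theorem exists_int {L : Set (Finset (Fin n))} (hL : Laminar L) : ∀ (m : ℕ) (y : Fin n → ℝ),
    (Finset.univ.filter (fun j => (⌊y j⌋ : ℝ) ≠ y j)).card = m →
    ∃ z : Fin n → ℤ, (∀ j, ⌊y j⌋ ≤ z j ∧ z j ≤ ⌈y j⌉) ∧
      ∀ S ∈ L, ⌊∑ j ∈ S, y j⌋ ≤ ∑ j ∈ S, z j ∧ ∑ j ∈ S, z j ≤ ⌈∑ j ∈ S, y j⌉ := by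
  intro m
  induction m using Nat.strong_induction_on with
  | _ m ih =>
    intro y hy
    set F : Finset (Fin n) := Finset.univ.filter (fun j => (⌊y j⌋ : ℝ) ≠ y j) with hF
    have hFm : ∀ j, j ∈ F ↔ (⌊y j⌋ : ℝ) ≠ y j := by
      intro j; simp [hF]
    -- in a set with at most one fractional coordinate
    have hother : ∀ T : Finset (Fin n), (T ∩ F).card ≤ 1 → ∀ a ∈ T, a ∈ F →
        ∀ j ∈ T, j ≠ a → (⌊y j⌋ : ℝ) = y j := by
      intro T hT a ha haF j hj hja
      by_contra hne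
      have : 1 < (T ∩ F).card := Finset.one_lt_card.2
        ⟨j, Finset.mem_inter.2 ⟨hj, (hFm j).2 hne⟩, a, Finset.mem_inter.2 ⟨ha, haF⟩, hja⟩
      omega
    by_cases hcase : ∃ S ∈ L, 2 ≤ (S ∩ F).card
    · obtain ⟨S, hS, hS2, hmin⟩ := exists_min L F hcase
      obtain ⟨a, ha, b, hb, hab⟩ := Finset.one_lt_card.1 (by omega : 1 < (S ∩ F).card)
      rw [Finset.mem_inter] at ha hb
      have haF := (hFm a).1 ha.2
      have hbF := (hFm b).1 hb.2
      have hca : y a < ⌈y a⌉ := by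
        refine lt_of_le_of_ne (Int.le_ceil _) fun h => haF ?_
        rw [h]
        simp
      have hfb : (⌊y b⌋ : ℝ) < y b := lt_of_le_of_ne (Int.floor_le _) hbF
      set t : ℝ := min (⌈y a⌉ - y a) (y b - ⌊y b⌋) with ht
      have ht0 : 0 < t := lt_min (by linarith) (by linarith)
      have hta : t ≤ ⌈y a⌉ - y a := min_le_left _ _
      have htb : t ≤ y b - ⌊y b⌋ := min_le_right _ _
      set y' : Fin n → ℝ := fun j => y j + (if j = a then t else 0) - (if j = b then t else 0)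
        with hy'
      have hya : y' a = y a + t := by simp [hy', hab]
      have hyb : y' b = y b - t := by simp [hy', hab.symm]
      have hyo : ∀ j, j ≠ a → j ≠ b → y' j = y j := by
        intro j h1 h2
        simp [hy', h1, h2]
      have hsum : ∀ T : Finset (Fin n), ∑ j ∈ T, y' j =
          ∑ j ∈ T, y j + (if a ∈ T then t else 0) - (if b ∈ T then t else 0) := by
        intro T
        simp only [hy', Finset.sum_sub_distrib, Finset.sum_add_distrib, Finset.sum_ite_eq']
      have hlt : (Finset.univ.filter (fun j => (⌊y' j⌋ : ℝ) ≠ y' j)).card < m := by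
        rw [← hy]
        apply Finset.card_lt_card
        rw [Finset.ssubset_iff_subset_ne]
        constructor
        · intro j hj
          rw [Finset.mem_filter] at hj
          by_cases h1 : j = a
          · rw [h1]; exact ha.2
          · by_cases h2 : j = b
            · rw [h2]; exact hb.2
            · rw [hyo j h1 h2] at hj
              exact (hFm j).2 hj.2
        · intro heq
          rcases le_total (⌈y a⌉ - y a) (y b - ⌊y b⌋) with h | h
          · have h3 : t = ⌈y a⌉ - y a := min_eq_left h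
            have h4 : a ∈ Finset.univ.filter (fun j => (⌊y' j⌋ : ℝ) ≠ y' j) := by
              rw [heq]; exact ha.2
            rw [Finset.mem_filter] at h4
            apply h4.2
            rw [hya, h3]
            have : y a + ((⌈y a⌉ : ℝ) - y a) = (⌈y a⌉ : ℝ) := by ring
            rw [this, Int.floor_intCast]
          · have h3 : t = y b - ⌊y b⌋ := min_eq_right h
            have h4 : b ∈ Finset.univ.filter (fun j => (⌊y' j⌋ : ℝ) ≠ y' j) := by
              rw [heq]; exact hb.2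
            rw [Finset.mem_filter] at h4
            apply h4.2
            rw [hyb, h3]
            have : y b - (y b - (⌊y b⌋ : ℝ)) = (⌊y b⌋ : ℝ) := by ring
            rw [this, Int.floor_intCast]
      obtain ⟨z, hz, hzL⟩ := ih _ hlt y' rfl
      have hfa : ⌊y a⌋ ≤ ⌊y' a⌋ := Int.floor_mono (by rw [hya]; linarith)
      have hcca : ⌈y' a⌉ ≤ ⌈y a⌉ := Int.ceil_le.2 (by rw [hya]; linarith)
      have hffb : ⌊y b⌋ ≤ ⌊y' b⌋ := Int.le_floor.2 (by rw [hyb]; linarith)
      have hcb : ⌈y' b⌉ ≤ ⌈y b⌉ := Int.ceil_mono (by rw [hyb]; linarith)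
      refine ⟨z, fun j => ?_, fun T hT => ?_⟩
      · by_cases h1 : j = a
        · subst h1
          exact ⟨hfa.trans (hz _).1, (hz _).2.trans hcca⟩
        · by_cases h2 : j = b
          · subst h2
            exact ⟨hffb.trans (hz _).1, (hz _).2.trans hcb⟩
          · have := hz j
            rwa [hyo j h1 h2] at this
      · have main : ⌊∑ j ∈ T, y j⌋ ≤ ⌊∑ j ∈ T, y' j⌋ ∧ ⌈∑ j ∈ T, y' j⌉ ≤ ⌈∑ j ∈ T, y j⌉ := by
          by_cases hT2 : 2 ≤ (T ∩ F).card
          · have hiff := both_or_none hL hS hT hmin hT2 ha.1 hb.1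
            have e : ∑ j ∈ T, y' j = ∑ j ∈ T, y j := by
              rw [hsum]
              by_cases h : a ∈ T
              · rw [if_pos h, if_pos (hiff.1 h)]; ring
              · rw [if_neg h, if_neg (fun h' => h (hiff.2 h'))]; ring
            rw [e]
            exact ⟨le_rfl, le_rfl⟩
          · have hT1 : (T ∩ F).card ≤ 1 := by omega
            by_cases haT : a ∈ T
            · have hbT : b ∉ T := by
                intro hbT
                exact hbF (hother T hT1 a haT ha.2 b hbT hab.symm)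
              have h3 := sum_single_frac y T a haT (hother T hT1 a haT ha.2)
              rw [hsum T, if_pos haT, if_neg hbT, sub_zero, h3]
              have h4 : y a + ((∑ j ∈ T.erase a, ⌊y j⌋ : ℤ) : ℝ) + t =
                  y' a + ((∑ j ∈ T.erase a, ⌊y j⌋ : ℤ) : ℝ) := by rw [hya]; ring
              rw [h4, Int.floor_add_intCast, Int.floor_add_intCast, Int.ceil_add_intCast,
                Int.ceil_add_intCast]
              exact ⟨by linarith, by linarith⟩
            · by_cases hbT : b ∈ T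
              · have h3 := sum_single_frac y T b hbT (hother T hT1 b hbT hb.2)
                rw [hsum T, if_neg haT, if_pos hbT, add_zero, h3]
                have h4 : y b + ((∑ j ∈ T.erase b, ⌊y j⌋ : ℤ) : ℝ) - t =
                    y' b + ((∑ j ∈ T.erase b, ⌊y j⌋ : ℤ) : ℝ) := by rw [hyb]; ring
                rw [h4, Int.floor_add_intCast, Int.floor_add_intCast, Int.ceil_add_intCast,
                  Int.ceil_add_intCast]
                exact ⟨by linarith, by linarith⟩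
              · rw [hsum T, if_neg haT, if_neg hbT, add_zero, sub_zero]
                exact ⟨le_rfl, le_rfl⟩
        exact ⟨main.1.trans (hzL T hT).1, (hzL T hT).2.trans main.2⟩
    · push Not at hcase
      refine ⟨fun j => ⌈y j⌉, fun j => ⟨Int.floor_le_ceil _, le_rfl⟩, fun T hT => ?_⟩
      have hT1 : (T ∩ F).card ≤ 1 := by have := hcase T hT; omega
      by_cases hne : ∃ a ∈ T, a ∈ F
      · obtain ⟨a, haT, haF⟩ := hne
        have h3 := sum_single_frac y T a haT (hother T hT1 a haT haF)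
        have h4 : ∑ j ∈ T, ⌈y j⌉ = ⌈y a⌉ + ∑ j ∈ T.erase a, ⌊y j⌋ := by
          rw [← Finset.add_sum_erase _ _ haT]
          congr 1
          exact Finset.sum_congr rfl fun j hj => ceil_of_int
            (hother T hT1 a haT haF j (Finset.mem_of_mem_erase hj) (Finset.ne_of_mem_erase hj))
        rw [h3, h4, Int.floor_add_intCast, Int.ceil_add_intCast]
        exact ⟨by have := Int.floor_le_ceil (y a); linarith, le_rfl⟩
      · push Not at hne
        have h5 : ∀ j ∈ T, (⌊y j⌋ : ℝ) = y j := by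
          intro j hj
          by_contra h
          exact hne j hj ((hFm j).2 h)
        have h3 : ∑ j ∈ T, y j = ((∑ j ∈ T, ⌊y j⌋ : ℤ) : ℝ) := by
          push_cast
          exact Finset.sum_congr rfl fun j hj => (h5 j hj).symm
        have h4 : ∑ j ∈ T, ⌈y j⌉ = ∑ j ∈ T, ⌊y j⌋ :=
          Finset.sum_congr rfl fun j hj => ceil_of_int (h5 j hj)
        rw [h3, h4, Int.floor_intCast, Int.ceil_intCast]
        exact ⟨le_rfl, le_rfl⟩

theorem approx {L : Set (Finset (Fin n))} (hL : Laminar L) (v : Fin n → κ → ℝ)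
    (𝒟 : (κ → ℝ) → Prop) (h1 : ∀ a, 𝒟 (v a)) (h2 : ∀ a b, 𝒟 (fun c => v a c - v b c)) (B : ℝ)
    (hB : HasSignings n 𝒟 B) (x₀ : Fin n → ℝ) (hx : ∀ j, 0 ≤ x₀ j ∧ x₀ j ≤ 1) (M : ℕ) :
    ∃ x : Fin n → ℤ, (∀ j, x j = 0 ∨ x j = 1) ∧
      (∀ S ∈ L, |∑ j ∈ S, ((x j : ℝ) - x₀ j)| < 1) ∧
      ∀ c, |∑ j, ((x j : ℝ) - x₀ j) * v j c| ≤ B + (∑ j, |v j c|) / 2 ^ M := by
  have hM : (0:ℝ) < 2 ^ M := by positivity
  obtain ⟨z, hz, hzL⟩ := exists_int hL _ (fun j => 2 ^ M * x₀ j) rfl
  have hz01 : ∀ j, 0 ≤ z j ∧ z j ≤ 2 ^ M := by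
    intro j
    constructor
    · refine le_trans ?_ (hz j).1
      apply Int.floor_nonneg.2
      have := (hx j).1
      positivity
    · refine (hz j).2.trans ?_
      apply Int.ceil_le.2
      push_cast
      have := (hx j).2
      nlinarith
  obtain ⟨x, hx01, hxL, hxv⟩ := dyadic hL v 𝒟 h1 h2 B hB M z hz01
  refine ⟨x, hx01, ?_, ?_⟩
  · intro S hS
    have h3 := hzL S hS
    have h4 := abs_le.1 (hxL S hS)
    rw [← Finset.mul_sum] at h3
    rw [Finset.sum_sub_distrib, ← Finset.mul_sum] at h4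
    rw [Finset.sum_sub_distrib]
    set X : ℤ := ∑ j ∈ S, x j with hX
    set Z : ℤ := ∑ j ∈ S, z j with hZ
    have hXc : ∑ j ∈ S, (x j : ℝ) = (X : ℝ) := by rw [hX]; push_cast; rfl
    rw [hXc]
    set Y : ℝ := ∑ j ∈ S, x₀ j with hY
    have h5 : (2:ℝ) ^ M * Y - 1 < Z := by
      have := Int.lt_floor_add_one (2 ^ M * Y)
      have h6 : (⌊2 ^ M * Y⌋ : ℝ) ≤ Z := by exact_mod_cast h3.1
      linarith
    have h6 : (Z : ℝ) < 2 ^ M * Y + 1 := by
      have := Int.ceil_lt_add_one (2 ^ M * Y)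
      have h7 : (Z : ℝ) ≤ ⌈2 ^ M * Y⌉ := by exact_mod_cast h3.2
      linarith
    have h7 : (2:ℝ) ^ M * X - Z ≤ 2 ^ M - 1 := by exact_mod_cast h4.2
    have h8 : -((2:ℝ) ^ M - 1) ≤ 2 ^ M * X - Z := by exact_mod_cast h4.1
    have h9 : (2:ℝ) ^ M * (X - Y) < 2 ^ M * 1 := by linarith
    have h10 : (2:ℝ) ^ M * (-1) < 2 ^ M * (X - Y) := by linarith
    rw [abs_lt]
    exact ⟨lt_of_mul_lt_mul_left h10 hM.le, lt_of_mul_lt_mul_left h9 hM.le⟩
  · intro c
    have hB0 : 0 ≤ B := by
      obtain ⟨_, _, h⟩ := hB 0 (Nat.zero_le _) (fun i => i.elim0) (fun i => i.elim0)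
      exact (abs_nonneg _).trans (h c)
    have e : ∑ j, ((x j : ℝ) - x₀ j) * v j c =
        (∑ j, ((2 ^ M * x j - z j : ℤ) : ℝ) * v j c) / 2 ^ M +
          (∑ j, ((z j : ℝ) - 2 ^ M * x₀ j) * v j c) / 2 ^ M := by
      rw [← add_div, ← Finset.sum_add_distrib, eq_div_iff hM.ne', Finset.sum_mul]
      refine Finset.sum_congr rfl fun j _ => ?_
      push_cast
      ring
    rw [e]
    refine (abs_add_le _ _).trans (add_le_add ?_ ?_)
    · rw [abs_div, abs_of_pos hM, div_le_iff₀ hM]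
      refine (hxv c).trans ?_
      nlinarith
    · rw [abs_div, abs_of_pos hM]
      apply div_le_div_of_nonneg_right _ hM.le
      refine (Finset.abs_sum_le_sum_abs _ _).trans (Finset.sum_le_sum fun j _ => ?_)
      rw [abs_mul]
      have h3 : |(z j : ℝ) - 2 ^ M * x₀ j| ≤ 1 := by
        rw [abs_le]
        have h4 := Int.lt_floor_add_one (2 ^ M * x₀ j)
        have h5 := Int.ceil_lt_add_one (2 ^ M * x₀ j)
        have h6 : (⌊2 ^ M * x₀ j⌋ : ℝ) ≤ z j := by exact_mod_cast (hz j).1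
        have h7 : (z j : ℝ) ≤ ⌈2 ^ M * x₀ j⌉ := by exact_mod_cast (hz j).2
        constructor <;> linarith
      calc |(z j : ℝ) - 2 ^ M * x₀ j| * |v j c| ≤ 1 * |v j c| :=
            mul_le_mul_of_nonneg_right h3 (abs_nonneg _)
        _ = |v j c| := one_mul _

/-- **Rounding with laminar constraints.** -/
theorem rounding {L : Set (Finset (Fin n))} (hL : Laminar L) (v : Fin n → κ → ℝ)
    (𝒟 : (κ → ℝ) → Prop) (h1 : ∀ a, 𝒟 (v a)) (h2 : ∀ a b, 𝒟 (fun c => v a c - v b c)) (B : ℝ)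
    (hB : HasSignings n 𝒟 B) (x₀ : Fin n → ℝ) (hx : ∀ j, 0 ≤ x₀ j ∧ x₀ j ≤ 1) :
    ∃ x : Fin n → ℤ, (∀ j, x j = 0 ∨ x j = 1) ∧
      (∀ S ∈ L, |∑ j ∈ S, ((x j : ℝ) - x₀ j)| < 1) ∧
      ∀ c, |∑ j, ((x j : ℝ) - x₀ j) * v j c| ≤ B := by
  classical
  choose X hX01 hXL hXv using approx hL v 𝒟 h1 h2 B hB x₀ hx
  obtain ⟨y, hy⟩ := Finite.exists_infinite_fiber (fun M : ℕ => fun j => decide (X M j = 1))
  have hyI : Set.Infinite {M : ℕ | (fun j => decide (X M j = 1)) = y} :=
    Set.infinite_coe_iff.1 hy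
  have hval : ∀ M ∈ {M : ℕ | (fun j => decide (X M j = 1)) = y}, ∀ j,
      X M j = if y j = true then 1 else 0 := by
    intro M hM j
    have h3 : decide (X M j = 1) = y j := congrFun hM j
    rw [← h3]
    rcases hX01 M j with h4 | h4 <;> simp [h4]
  refine ⟨fun j => if y j = true then 1 else 0, fun j => ?_, ?_, ?_⟩
  · by_cases h : y j = true <;> simp [h]
  · obtain ⟨M, hM⟩ := hyI.nonempty
    intro S hS
    have h3 := hXL M S hS
    simp_rw [hval M hM] at h3
    exact h3
  · intro c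
    apply le_of_forall_pos_le_add
    intro e he
    obtain ⟨M₀, hM₀⟩ := exists_nat_gt ((∑ j, |v j c|) / e)
    obtain ⟨M, hM, hMM⟩ := hyI.exists_gt M₀
    have h3 := hXv M c
    simp_rw [hval M hM] at h3
    refine h3.trans (add_le_add_right ?_ _)
    have h4 : (M:ℝ) < 2 ^ M := by exact_mod_cast Nat.lt_two_pow_self
    have h5 : (M₀ : ℝ) < M := by exact_mod_cast hMM
    rw [div_le_iff₀ (by positivity)]
    rw [div_lt_iff₀ he] at hM₀
    nlinarith

end Pool.Agent.R814.Lam
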